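import Pool.Agent.MP_913ab3_an.Proof

open Pool.Agent.MP_913ab3_an Filter Topology

/-- With `S 1` the limit of `S r` as `r → 1+` (which is `log 2`), the function `S` is strictly
increasing on `[1, ∞)`. -/
theorem Pool.Agent.Results.MP_913ab3_an.Increasing.result :
    ∃ L : ℝ, Tendsto S (𝓝[>] 1) (𝓝 L) ∧
      ∀ r r' : ℝ, 1 ≤ r → r < r' →
        (if r = 1 then L else S r) < (if r' = 1 then L else S r') :=
  ⟨Real.log 2, tendsto_S, fun _ _ hr h => main hr (hr.trans h.le) h⟩
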